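import Mathlib
import Pool.Agent.H34.PermMu

namespace Pool.Agent.Results.MP_923311_co.MuZero
open Pool.Agent.H34.PermMuDefs

/-- The complex of chains of elements `τ ∈ (σ, π)` with `μ(σ, τ) = 0` need not be pure. -/
theorem result : ∃ σ π : List ℕ, IsPm σ ∧ IsPm π ∧ Pat σ π ∧ ∃ C D : Finset (List ℕ),
    Maximal (Face (· = 0) σ π) C ∧ Maximal (Face (· = 0) σ π) D ∧ C.card ≠ D.card :=
  ⟨[0], [0, 3, 2, 1, 4], by unfold IsPm; decide, by unfold IsPm; decide,
    ⟨[0], by decide, rfl, by simp⟩, _, _, H34.PermMu.zero1, H34.PermMu.zero2, by decide⟩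

end Pool.Agent.Results.MP_923311_co.MuZero
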